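import Pool.Agent.H32.RK.TargetsA

/-!
# hpk_modules, row AQC: the number of vectors which are not primitive (helper36)
-/

set_option autoImplicit false

open Finset NumberField Pool.Agent.H32.RQ Pool.Agent.H32.RK

namespace Pool.Agent.H36.RK

theorem pf_AQC : T_AQC := by
  intro R _ _ s 𝒥 h𝒥
  classical
  have h1 : Nat.card {x : Fin s → R // ¬ Prm x} ≤ ∑ I ∈ 𝒥.erase ⊤, Nat.card I ^ s := by
    rw [Nat.card_eq_fintype_card, Fintype.card_subtype]
    have h2 : (univ.filter fun x : Fin s → R => ¬ Prm x) ⊆ (𝒥.erase ⊤).biUnion fun I =>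
        Fintype.piFinset fun _ : Fin s => univ.filter fun a : R => a ∈ I := by
      intro x hx
      rw [mem_filter] at hx
      rw [mem_biUnion]
      refine ⟨Ideal.span (Set.range x), ?_, ?_⟩
      · rw [mem_erase]
        refine ⟨fun h => hx.2 ?_, h𝒥 _⟩
        have h3 : (1 : R) ∈ Ideal.span (Set.range x) := by
          rw [h]
          trivial
        obtain ⟨c, hc⟩ := Ideal.mem_span_range_iff_exists_fun.1 h3
        exact ⟨c, hc⟩
      · rw [Fintype.mem_piFinset]
        intro j
        rw [mem_filter]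
        exact ⟨mem_univ _, Ideal.subset_span ⟨j, rfl⟩⟩
    refine (card_le_card h2).trans (card_biUnion_le.trans (sum_le_sum fun I _ => ?_))
    rw [Fintype.card_piFinset, prod_const, card_univ, Fintype.card_fin]
    refine Nat.pow_le_pow_left (le_of_eq ?_) s
    rw [Nat.card_eq_fintype_card, ← Fintype.card_subtype]
  have h4 : ((∑ I ∈ 𝒥.erase ⊤, Nat.card I ^ s : ℕ) : ℝ) =
      (Nat.card R : ℝ) ^ s * ∑ I ∈ 𝒥.erase ⊤, 1 / (Nat.card (R ⧸ I) : ℝ) ^ s := by
    rw [mul_sum]
    push_cast
    refine sum_congr rfl fun I _ => ?_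
    have h5 := Submodule.card_eq_card_quotient_mul_card I
    have h6 : (Nat.card (R ⧸ I) : ℝ) ≠ 0 := by
      have : 0 < Nat.card (R ⧸ I) := Nat.card_pos
      positivity
    have h7 : (Nat.card R : ℝ) = Nat.card I * Nat.card (R ⧸ I) := by
      rw [h5]
      push_cast
      ring
    rw [h7, mul_pow]
    field_simp
  rw [← h4]
  exact_mod_cast h1

end Pool.Agent.H36.RK
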