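import Pool.Agent.H32.RK.TargetsA

/-!
# hpk_modules, row CHN: the quotient by a prime power (helper36)
-/

set_option autoImplicit false

open Finset NumberField Pool.Agent.H32.RQ Pool.Agent.H32.RK

namespace Pool.Agent.H36.RK

section chain

variable {A : Type} [CommRing A] [IsDedekindDomain A] {𝔭 : Ideal A}

lemma ch_pow (hp : 𝔭.IsPrime) (h0 : 𝔭 ≠ ⊥) (t : ℕ) (J : Ideal A) (hJ : 𝔭 ^ t ≤ J) :
    ∃ a ≤ t, J = 𝔭 ^ a := by
  have h1 : J ∣ 𝔭 ^ t := Ideal.dvd_iff_le.2 hJ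
  obtain ⟨a, ha, hass⟩ := (dvd_prime_pow (Ideal.prime_of_isPrime h0 hp) t).1 h1
  exact ⟨a, ha, associated_iff_eq.1 hass⟩

lemma ch_comap (hp : 𝔭.IsPrime) (h0 : 𝔭 ≠ ⊥) (t : ℕ) (I : Ideal (A ⧸ 𝔭 ^ t)) :
    ∃ a ≤ t, I.comap (Ideal.Quotient.mk (𝔭 ^ t)) = 𝔭 ^ a := by
  refine ch_pow hp h0 t _ ?_
  intro x hx
  rw [Ideal.mem_comap, Ideal.Quotient.eq_zero_iff_mem.2 hx]
  exact I.zero_mem

lemma ch_map {t : ℕ} (I : Ideal (A ⧸ 𝔭 ^ t)) :
    I = (I.comap (Ideal.Quotient.mk (𝔭 ^ t))).map (Ideal.Quotient.mk (𝔭 ^ t)) :=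
  (Ideal.map_comap_of_surjective _ Ideal.Quotient.mk_surjective I).symm

/-- the quotient is a local ring -/
lemma ch_local (hp : 𝔭.IsPrime) (h0 : 𝔭 ≠ ⊥) (t : ℕ) (ht : 1 ≤ t) :
    IsLocalRing (A ⧸ 𝔭 ^ t) := by
  have hmax : 𝔭.IsMaximal := hp.isMaximal h0
  have hne : 𝔭 ^ t ≠ ⊤ := by
    intro h
    have : 𝔭 ^ t ≤ 𝔭 := Ideal.pow_le_self (by omega)
    rw [h, top_le_iff] at this
    exact hp.ne_top this
  have hnt : Nontrivial (A ⧸ 𝔭 ^ t) := Ideal.Quotient.nontrivial_iff.2 hne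
  have hu : ∀ M : Ideal (A ⧸ 𝔭 ^ t), M.IsMaximal → M = 𝔭.map (Ideal.Quotient.mk (𝔭 ^ t)) := by
    intro M hM
    have h1 : (M.comap (Ideal.Quotient.mk (𝔭 ^ t))).IsPrime := by
      have := hM.isPrime
      exact Ideal.comap_isPrime _ M
    have h2 : 𝔭 ≤ M.comap (Ideal.Quotient.mk (𝔭 ^ t)) := by
      refine h1.le_of_pow_le (n := t) ?_
      intro x hx
      rw [Ideal.mem_comap, Ideal.Quotient.eq_zero_iff_mem.2 hx]
      exact M.zero_mem
    have h3 : M.comap (Ideal.Quotient.mk (𝔭 ^ t)) = 𝔭 :=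
      (hmax.eq_of_le h1.ne_top h2).symm
    rw [ch_map M, h3]
  obtain ⟨M, hM⟩ := Ideal.exists_maximal (A ⧸ 𝔭 ^ t)
  refine IsLocalRing.of_unique_max_ideal ⟨M, hM, ?_⟩
  intro M' hM'
  rw [hu M hM, hu M' hM']

/-- the quotient is a principal ideal ring -/
lemma ch_pir (hp : 𝔭.IsPrime) (h0 : 𝔭 ≠ ⊥) (t : ℕ) :
    IsPrincipalIdealRing (A ⧸ 𝔭 ^ t) := by
  refine ⟨fun I => ?_⟩
  obtain ⟨a, hat, ha⟩ := ch_comap hp h0 t I
  rcases Nat.lt_or_ge a t with hlt | hge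
  · obtain ⟨x, hx, hx'⟩ := Ideal.exists_mem_pow_notMem_pow_succ 𝔭 h0 hp.ne_top a
    obtain ⟨b, hbt, hb⟩ := ch_pow hp h0 t (Ideal.span {x} ⊔ 𝔭 ^ t) le_sup_right
    have hxb : x ∈ 𝔭 ^ b := by
      rw [← hb]
      exact Ideal.mem_sup_left (Ideal.mem_span_singleton_self x)
    have h1 : b ≤ a := by
      by_contra h
      exact hx' (Ideal.pow_le_pow_right (by omega) hxb)
    have h2 : 𝔭 ^ b ≤ 𝔭 ^ a := by
      rw [← hb, sup_le_iff]
      refine ⟨?_, Ideal.pow_le_pow_right hat⟩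
      rw [Ideal.span_singleton_le_iff_mem]
      exact hx
    have h3 : 𝔭 ^ a = Ideal.span {x} ⊔ 𝔭 ^ t := by
      rw [hb]
      exact le_antisymm (Ideal.pow_le_pow_right h1) h2
    refine ⟨⟨Ideal.Quotient.mk (𝔭 ^ t) x, ?_⟩⟩
    rw [ch_map I, ha, h3, Ideal.map_sup, Ideal.map_span, Set.image_singleton,
      Ideal.map_quotient_self, sup_bot_eq]
  · have h1 : a = t := le_antisymm hat hge
    refine ⟨⟨0, ?_⟩⟩
    rw [ch_map I, ha, h1, Ideal.map_quotient_self]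
    simp

end chain

lemma ch_geo (N t : ℕ) (hN : 2 ≤ N) : ∑ b ∈ range (t + 1), N ^ b ≤ 2 * N ^ t := by
  induction t with
  | zero => simp
  | succ t ih =>
    rw [sum_range_succ]
    have h1 : 2 * N ^ t ≤ N * N ^ t := Nat.mul_le_mul_right _ hN
    have h2 : N ^ (t + 1) = N * N ^ t := by
      rw [pow_succ, mul_comm]
    omega

theorem pf_CHN (K : Type) [Field K] [NumberField K] : T_CHN K := by
  intro 𝔭 t hp h0 ht
  classical
  refine ⟨ch_local hp h0 t ht, ch_pir hp h0 t, ?_⟩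
  intro 𝒥
  obtain ⟨N, hN⟩ : ∃ N : ℕ, N = Ideal.absNorm 𝔭 := ⟨_, rfl⟩
  have hN2 : 2 ≤ N := by
    have h1 : N ≠ 0 := by
      rw [hN]
      exact fun h => h0 (Ideal.absNorm_eq_zero_iff.1 h)
    have h2 : N ≠ 1 := by
      rw [hN]
      exact fun h => hp.ne_top (Ideal.absNorm_eq_one_iff.1 h)
    omega
  have hex : ∀ I : Ideal (𝓞 K ⧸ 𝔭 ^ t), ∃ a ≤ t,
      I.comap (Ideal.Quotient.mk (𝔭 ^ t)) = 𝔭 ^ a := fun I => ch_comap hp h0 t I
  choose a hat ha using hex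
  have hcard : ∀ I : Ideal (𝓞 K ⧸ 𝔭 ^ t), Nat.card I = N ^ (t - a I) := by
    intro I
    have h1 := Submodule.card_eq_card_quotient_mul_card I
    have h2 : Nat.card (𝓞 K ⧸ 𝔭 ^ t) = N ^ t := by
      have : Ideal.absNorm (𝔭 ^ t) = N ^ t := by rw [map_pow, hN]
      rw [← this, Ideal.absNorm_apply, Submodule.cardQuot_apply]
    have h3 : Nat.card ((𝓞 K ⧸ 𝔭 ^ t) ⧸ I) = N ^ (a I) := by
      have h4 : Function.Surjective ((Ideal.Quotient.mk I).comp (Ideal.Quotient.mk (𝔭 ^ t))) :=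
        Ideal.Quotient.mk_surjective.comp Ideal.Quotient.mk_surjective
      have h5 : RingHom.ker ((Ideal.Quotient.mk I).comp (Ideal.Quotient.mk (𝔭 ^ t))) =
          𝔭 ^ (a I) := by
        rw [← ha I]
        ext x
        rw [RingHom.mem_ker, RingHom.comp_apply, Ideal.Quotient.eq_zero_iff_mem, Ideal.mem_comap]
      have h6 := Nat.card_congr (RingHom.quotientKerEquivOfSurjective h4).toEquiv
      rw [← h6, h5]
      have : Ideal.absNorm (𝔭 ^ (a I)) = N ^ (a I) := by rw [map_pow, hN]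
      rw [← this, Ideal.absNorm_apply, Submodule.cardQuot_apply]
    rw [h2, h3] at h1
    have h7 : N ^ t = N ^ (t - a I) * N ^ (a I) := by
      rw [← pow_add, Nat.sub_add_cancel (hat I)]
    have h8 : 0 < N ^ (a I) := by positivity
    apply Nat.eq_of_mul_eq_mul_right h8
    rw [← h7, h1]
  have hinj : Set.InjOn (fun I => t - a I) (𝒥 : Set (Ideal (𝓞 K ⧸ 𝔭 ^ t))) := by
    intro I _ J _ hIJ
    have h1 : t - a I = t - a J := hIJ
    have h2 : a I = a J := by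
      have := hat I
      have := hat J
      omega
    rw [ch_map I, ch_map J, ha I, ha J, h2]
  calc ∑ I ∈ 𝒥, Nat.card I = ∑ I ∈ 𝒥, N ^ (t - a I) := sum_congr rfl fun I _ => hcard I
    _ = ∑ b ∈ 𝒥.image (fun I => t - a I), N ^ b := (sum_image hinj).symm
    _ ≤ ∑ b ∈ range (t + 1), N ^ b := by
      refine sum_le_sum_of_subset ?_
      intro b hb
      rw [mem_image] at hb
      obtain ⟨I, _, rfl⟩ := hb
      rw [mem_range]
      omega
    _ ≤ 2 * Ideal.absNorm 𝔭 ^ t := by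
      rw [← hN]
      exact ch_geo N t hN2

end Pool.Agent.H36.RK
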