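import Pool.Agent.H32.RK.TargetsA
import Pool.Agent.H32.RK.TargetsE

/-!
# hpk_modules, row HP: almost all locally soluble pairs have a small zero (helper36)
-/

set_option autoImplicit false

open Finset NumberField Pool.Agent.H32.RQ Pool.Agent.H32.RK

namespace Pool.Agent.H36.RK

theorem hp_cover {α ι κ : Type} [DecidableEq α] (S : Finset α) (P B : α → Prop)
    (A : κ → α → Prop) (C : ι → α → Prop) (D : α → Prop) [DecidablePred P]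
    [∀ i, DecidablePred (A i)] [DecidablePred B] [∀ i, DecidablePred (C i)] [DecidablePred D]
    (W : Finset κ) (I : Finset ι)
    (h : ∀ x ∈ S, P x → (∃ w ∈ W, A w x) ∨ (∃ i ∈ I, C i x) ∨ B x ∨ D x) :
    ((S.filter P).card : ℝ) ≤ (∑ w ∈ W, ((S.filter (A w)).card : ℝ)) +
      (∑ i ∈ I, ((S.filter (C i)).card : ℝ)) +
      ((S.filter B).card : ℝ) + ((S.filter D).card : ℝ) := by
  have h1 : S.filter P ⊆ (((W.biUnion fun w => S.filter (A w)) ∪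
      I.biUnion fun i => S.filter (C i)) ∪ S.filter B) ∪ S.filter D := by
    intro x hx
    rw [mem_filter] at hx
    rcases h x hx.1 hx.2 with ⟨w, hw, h⟩ | ⟨i, hi, h⟩ | h | h
    · exact mem_union_left _ (mem_union_left _ (mem_union_left _
        (mem_biUnion.2 ⟨w, hw, mem_filter.2 ⟨hx.1, h⟩⟩)))
    · exact mem_union_left _ (mem_union_left _ (mem_union_right _
        (mem_biUnion.2 ⟨i, hi, mem_filter.2 ⟨hx.1, h⟩⟩)))
    · exact mem_union_left _ (mem_union_right _ (mem_filter.2 ⟨hx.1, h⟩))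
    · exact mem_union_right _ (mem_filter.2 ⟨hx.1, h⟩)
  have h2 := card_le_card h1
  have h3 := card_union_le (((W.biUnion fun w => S.filter (A w)) ∪
      I.biUnion fun i => S.filter (C i)) ∪ S.filter B) (S.filter D)
  have h4 := card_union_le ((W.biUnion fun w => S.filter (A w)) ∪
      I.biUnion fun i => S.filter (C i)) (S.filter B)
  have h5 := card_union_le (W.biUnion fun w => S.filter (A w))
    (I.biUnion fun i => S.filter (C i))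
  have h6 : (I.biUnion fun i => S.filter (C i)).card ≤ ∑ i ∈ I, (S.filter (C i)).card :=
    card_biUnion_le
  have h6' : (W.biUnion fun w => S.filter (A w)).card ≤ ∑ w ∈ W, (S.filter (A w)).card :=
    card_biUnion_le
  have h7 : (S.filter P).card ≤ (∑ w ∈ W, (S.filter (A w)).card) +
      (∑ i ∈ I, (S.filter (C i)).card) + (S.filter B).card + (S.filter D).card := by omega
  exact_mod_cast h7

theorem hp_RB {K : Type} [Field K] [NumberField K] {s : ℕ} {w : InfinitePlace K} {d r : ℝ}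
    (hr : 0 ≤ r) {A : ℕ} {c : Fin 2 → Mon s → 𝓞 K} (h : RB w d 0 A c) : RB w d r A c := by
  obtain ⟨x, h0, h1, h2, h3, h4⟩ := h
  refine ⟨x, h0, h1, h2, fun i => (h3 i).trans ?_, h4⟩
  rw [zero_mul]
  positivity

theorem pf_HP (K : Type) [Field K] [NumberField K] (hMN : T_MN K) (hAQO : T_AQO K)
    (hTRB : T_TRB K) (hPNB : T_PNB K) (hRNB : T_RNB K) (hRZB : T_RZB K) (hQPZ : T_QPZ K) :
    T_HP K := by
  classical
  intro ι _ _ ω s hs ε hε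
  obtain ⟨C₁, hC₁, hR⟩ := hRNB ι ω s (by omega)
  obtain ⟨C₂, hC₂, hQ⟩ := hAQO
  obtain ⟨C₃, hC₃, hP⟩ := hPNB ι ω s (by omega)
  obtain ⟨C₄, hC₄, hT⟩ := hTRB ι ω
  -- the choice of `d`
  obtain ⟨n, hn⟩ : ∃ n : ℕ, n = Fintype.card (InfinitePlace K) := ⟨_, rfl⟩
  obtain ⟨d, hd⟩ : ∃ d : ℝ, d = min 1 (ε / (4 * C₁ * (n + 1))) := ⟨_, rfl⟩
  have hn0 : (0 : ℝ) ≤ n := Nat.cast_nonneg _
  have hd0 : 0 < d := by
    rw [hd]
    exact lt_min one_pos (by positivity)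
  have hd1 : d ≤ 1 := hd ▸ min_le_left _ _
  have hd2 : (n : ℝ) * (C₁ * d) ≤ ε / 4 := by
    have h1 : d ≤ ε / (4 * C₁ * (n + 1)) := hd ▸ min_le_right _ _
    rw [le_div_iff₀ (by positivity)] at h1
    nlinarith
  obtain ⟨A₁, hA₁⟩ := hR d hd0 hd1
  -- the choice of `w₀`
  obtain ⟨w₁, hw₁⟩ := exists_nat_ge (4 * C₄ ^ (2 * md s) * C₂ / ε)
  obtain ⟨w₀, hw₀⟩ : ∃ w₀ : ℕ, w₀ = w₁ + 1 := ⟨_, rfl⟩
  have hw1 : 1 ≤ w₀ := by omega
  have hw1' : (1 : ℝ) ≤ (w₀ : ℝ) := by exact_mod_cast hw1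
  have hw2 : 4 * C₄ ^ (2 * md s) * C₂ ≤ ε * (w₀ : ℝ) ^ 2 := by
    have h1 : 4 * C₄ ^ (2 * md s) * C₂ ≤ w₁ * ε := by
      rwa [div_le_iff₀ hε] at hw₁
    have h2 : (w₁ : ℝ) ≤ (w₀ : ℝ) ^ 2 := by
      have : (w₁ : ℝ) ≤ w₀ := by
        rw [hw₀]
        push_cast
        linarith
      nlinarith
    nlinarith
  -- the primes of small norm
  have hfin : {I : Ideal (𝓞 K) | Ideal.absNorm I ≤ w₀}.Finite := Ideal.finite_setOfPred_absNorm_le w₀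
  obtain ⟨PP, hPP⟩ : ∃ PP : Finset (Ideal (𝓞 K)), PP = hfin.toFinset.filter
    fun 𝔭 => 𝔭.IsPrime ∧ 𝔭 ≠ ⊥ := ⟨_, rfl⟩
  have hmem : ∀ 𝔭 : Ideal (𝓞 K), 𝔭 ∈ PP ↔ Ideal.absNorm 𝔭 ≤ w₀ ∧ 𝔭.IsPrime ∧ 𝔭 ≠ ⊥ := by
    intro 𝔭
    rw [hPP, mem_filter, Set.Finite.mem_toFinset]
    rfl
  -- the choice of `t`
  obtain ⟨t₁, ht₁⟩ := exists_nat_ge (4 * (PP.card : ℝ) * C₃ / ε)
  obtain ⟨t, ht⟩ : ∃ t : ℕ, t = t₁ + 1 := ⟨_, rfl⟩
  have ht1 : 1 ≤ t := by omega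
  have ht2 : 4 * (PP.card : ℝ) * C₃ ≤ ε * (2 : ℝ) ^ t := by
    have h1 : 4 * (PP.card : ℝ) * C₃ ≤ t₁ * ε := by
      rwa [div_le_iff₀ hε] at ht₁
    have h2 : (t₁ : ℝ) ≤ (2 : ℝ) ^ t := by
      have : t₁ ≤ 2 ^ t := by
        have := Nat.lt_two_pow_self (n := t)
        omega
      exact_mod_cast this
    nlinarith
  obtain ⟨r, hr0, hr⟩ := hMN ι ω s d t w₀ hs hd0
  obtain ⟨𝔴₁, Cm, A₂, hW, hWp, hA₂⟩ := hr (ε / 4) (by positivity)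
  refine ⟨Cm, A₁ + A₂ + w₀ ^ t + Ideal.absNorm 𝔴₁ + 1, fun A hA => ?_⟩
  obtain ⟨X, hX⟩ : ∃ X : ℝ, X = (2 * (A : ℝ) + 1) ^ (2 * md s * Fintype.card ι) := ⟨_, rfl⟩
  have hX0 : (0 : ℝ) ≤ X := by
    rw [hX]
    positivity
  -- the residues
  obtain ⟨E, hE⟩ : ∃ E : Set (Fin 2 → Mon s → 𝓞 K ⧸ 𝔴₁),
    E = {F | 2 * am F < Ideal.absNorm 𝔴₁ ^ (s - 2)} := ⟨_, rfl⟩
  have hE1 : (Nat.card E : ℝ) * (w₀ : ℝ) ^ 2 ≤
      C₂ * (Ideal.absNorm 𝔴₁ : ℝ) ^ (2 * md s) := by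
    rw [hE]
    exact hQ s w₀ 𝔴₁ hs hw1 hW hWp
  have hcov := hp_cover (bx ι s A) (fun c => LS (ec ω c) ∧ ¬ SZ Cm A (ec ω c))
    (fun c => cq 𝔴₁ (ec ω c) ∈ E) (fun (w : InfinitePlace K) c => RN w d A (ec ω c))
    (fun (𝔭 : Ideal (𝓞 K)) c => NP t 𝔭 (ec ω c))
    (fun c => (∀ w, RB w d r A (ec ω c)) ∧
      (∀ 𝔭 : Ideal (𝓞 K), 𝔭.IsPrime → 𝔭 ≠ ⊥ → Ideal.absNorm 𝔭 ≤ w₀ → PR t 𝔭 (ec ω c)) ∧
      Ideal.absNorm 𝔴₁ ^ (s - 2) ≤ 2 * am (cq 𝔴₁ (ec ω c)) ∧ ¬ SZ Cm A (ec ω c))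
    univ PP (by
      rintro c hc ⟨h1, h3⟩
      by_cases hrn : ∃ w ∈ (univ : Finset (InfinitePlace K)), RN w d A (ec ω c)
      · exact Or.inl hrn
      by_cases hp : ∃ 𝔭 ∈ PP, NP t 𝔭 (ec ω c)
      · exact Or.inr (Or.inl hp)
      by_cases he : cq 𝔴₁ (ec ω c) ∈ E
      · exact Or.inr (Or.inr (Or.inl he))
      refine Or.inr (Or.inr (Or.inr ⟨fun w => ?_, fun 𝔭 hp1 hp2 hp3 => ?_, ?_, h3⟩))
      · rcases hRZB s A d (ec ω c) h1 w with h | h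
        · exact hp_RB hr0.le h
        · exact absurd ⟨w, mem_univ _, h⟩ hrn
      · rcases hQPZ s t ⟨𝔭, hp1, hp2⟩ (ec ω c) (h1.2.2 ⟨𝔭, hp1, hp2⟩) with h | h
        · exact h
        · exact absurd ⟨𝔭, (hmem 𝔭).2 ⟨hp3, hp1, hp2⟩, h⟩ hp
      · rw [hE] at he
        exact Nat.le_of_not_lt he)
  have b1 : (∑ w : InfinitePlace K, (((bx ι s A).filter fun c => RN w d A (ec ω c)).card : ℝ)) ≤
      ε / 4 * X := by
    have h : ∀ w ∈ (univ : Finset (InfinitePlace K)),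
        (((bx ι s A).filter fun c => RN w d A (ec ω c)).card : ℝ) ≤ C₁ * d * X := by
      intro w _
      rw [hX]
      exact hA₁ A (by omega) w
    refine (Finset.sum_le_card_nsmul _ _ _ h).trans ?_
    rw [nsmul_eq_mul, card_univ, ← hn, ← mul_assoc]
    exact mul_le_mul_of_nonneg_right hd2 hX0
  have b2 : ∀ 𝔭 ∈ PP, (((bx ι s A).filter fun c => NP t 𝔭 (ec ω c)).card : ℝ) ≤
      C₃ * X / 2 ^ t := by
    intro 𝔭 hp
    obtain ⟨hp1, hp2, hp3⟩ := (hmem 𝔭).1 hp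
    have hN2 : 2 ≤ Ideal.absNorm 𝔭 := by
      have h1 : Ideal.absNorm 𝔭 ≠ 0 := fun h => hp3 (Ideal.absNorm_eq_zero_iff.1 h)
      have h2 : Ideal.absNorm 𝔭 ≠ 1 := fun h => hp2.ne_top (Ideal.absNorm_eq_one_iff.1 h)
      omega
    have hpt : Ideal.absNorm 𝔭 ^ t ≤ A := by
      have : Ideal.absNorm 𝔭 ^ t ≤ w₀ ^ t := Nat.pow_le_pow_left hp1 t
      omega
    have h := hP t A 𝔭 hp2 hp3 ht1 hpt
    rw [← hX] at h
    rw [le_div_iff₀ (by positivity)]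
    refine le_trans ?_ h
    apply mul_le_mul_of_nonneg_left _ (Nat.cast_nonneg _)
    apply pow_le_pow_left₀ (by norm_num)
    exact_mod_cast hN2
  have b2' : (∑ 𝔭 ∈ PP, (((bx ι s A).filter fun c => NP t 𝔭 (ec ω c)).card : ℝ)) ≤
      ε / 4 * X := by
    refine (Finset.sum_le_card_nsmul _ _ _ b2).trans ?_
    have h2t : (0 : ℝ) < 2 ^ t := by positivity
    rw [nsmul_eq_mul, mul_div_assoc', div_le_iff₀ h2t]
    have h4 := mul_le_mul_of_nonneg_left ht2 (show (0 : ℝ) ≤ X / 4 by positivity)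
    linarith
  have b3 : (((bx ι s A).filter fun c => cq 𝔴₁ (ec ω c) ∈ E).card : ℝ) ≤ ε / 4 * X := by
    have h := hT s A 𝔴₁ E hW (by omega) (by omega)
    rw [← hX] at h
    have hW0 : (0 : ℝ) < (Ideal.absNorm 𝔴₁ : ℝ) ^ (2 * md s) := by
      have h1 : Ideal.absNorm 𝔴₁ ≠ 0 := fun h => hW (Ideal.absNorm_eq_zero_iff.1 h)
      have : 0 < Ideal.absNorm 𝔴₁ := Nat.pos_of_ne_zero h1
      positivity
    have hw0 : (0 : ℝ) < (w₀ : ℝ) ^ 2 := by positivity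
    obtain ⟨q, hq⟩ : ∃ q : ℝ, q = (((bx ι s A).filter fun c => cq 𝔴₁ (ec ω c) ∈ E).card : ℝ) :=
      ⟨_, rfl⟩
    rw [← hq] at h ⊢
    have h1 : q * (w₀ : ℝ) ^ 2 * (Ideal.absNorm 𝔴₁ : ℝ) ^ (2 * md s) ≤
        C₄ ^ (2 * md s) * X * C₂ * (Ideal.absNorm 𝔴₁ : ℝ) ^ (2 * md s) := by
      calc q * (w₀ : ℝ) ^ 2 * (Ideal.absNorm 𝔴₁ : ℝ) ^ (2 * md s) =
          q * (Ideal.absNorm 𝔴₁ : ℝ) ^ (2 * md s) * (w₀ : ℝ) ^ 2 := by ring
        _ ≤ C₄ ^ (2 * md s) * X * Nat.card E * (w₀ : ℝ) ^ 2 :=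
          mul_le_mul_of_nonneg_right h hw0.le
        _ = C₄ ^ (2 * md s) * X * (Nat.card E * (w₀ : ℝ) ^ 2) := by ring
        _ ≤ C₄ ^ (2 * md s) * X * (C₂ * (Ideal.absNorm 𝔴₁ : ℝ) ^ (2 * md s)) := by
          apply mul_le_mul_of_nonneg_left hE1
          positivity
        _ = _ := by ring
    have h2 := le_of_mul_le_mul_right h1 hW0
    have h3 : q * (w₀ : ℝ) ^ 2 ≤ ε / 4 * X * (w₀ : ℝ) ^ 2 := by
      refine h2.trans ?_
      have h4 := mul_le_mul_of_nonneg_left hw2 (show (0 : ℝ) ≤ X / 4 by positivity)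
      linarith
    exact le_of_mul_le_mul_right h3 hw0
  have b4 := hA₂ A (by omega)
  rw [← hX] at b4 ⊢
  have e1 : (((bx ι s A).filter fun c => LS (ec ω c) ∧ ¬ SZ Cm A (ec ω c)).card : ℝ) ≤
      ε / 4 * X + ε / 4 * X + ε / 4 * X + ε / 4 * X := by
    refine hcov.trans ?_
    exact add_le_add (add_le_add (add_le_add b1 b2') b3) b4
  refine e1.trans (le_of_eq ?_)
  ring

end Pool.Agent.H36.RK
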